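import Mathlib
import Pool.Agent.H31.Mag2

set_option autoImplicit false
open Matrix Finset ComplexConjugate Pool.Agent.H31.Mag Polynomial

namespace Pool.Agent.Results.MP_cbccc2_co.Exists

/-- p is a finite covering map from H onto G. -/
def IsLift {W V : Type} (H : SimpleGraph W) (G : SimpleGraph V) (p : W → V) : Prop :=
  Function.Surjective p ∧ ∀ x, Set.BijOn p (H.neighborSet x) (G.neighborSet (p x))

def I {n : ℕ} (w : Fin n) (T : Fin 2 × Fin n) : Prop :=
  w = T.2 ∨ w.val = (T.2 + 1 + T.1) % n ∨ w.val = (T.2 + 3) % n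

instance {n : ℕ} (w : Fin n) (T : Fin 2 × Fin n) : Decidable (I w T) := by unfold I; infer_instance

def G (n : ℕ) : SimpleGraph (Fin n ⊕ Fin 2 × Fin n) where
  Adj
    | .inl w, .inr T => I w T
    | .inr T, .inl w => I w T
    | _, _ => False
  symm := ⟨by rintro (a | a) (b | b) h <;> exact h⟩
  loopless := ⟨by rintro (a | a) h <;> exact h⟩

instance (n : ℕ) : DecidableRel (G n).Adj := fun a b =>
  match a, b with
  | .inl w, .inr T => inferInstanceAs (Decidable (I w T))
  | .inr T, .inl w => inferInstanceAs (Decidable (I w T))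
  | .inl _, .inl _ => isFalse id
  | .inr _, .inr _ => isFalse id

theorem adj {n : ℕ} : (∀ a b, (G n).Adj (.inl a) (.inl b) ↔ False) ∧
    (∀ a b, (G n).Adj (.inr a) (.inr b) ↔ False) ∧ (∀ a b, (G n).Adj (.inl a) (.inr b) ↔ I a b) ∧
    ∀ a b, (G n).Adj (.inr a) (.inl b) ↔ I b a :=
  ⟨fun _ _ => .rfl, fun _ _ => .rfl, fun _ _ => .rfl, fun _ _ => .rfl⟩

def r (i : Fin 14) : Fin 7 := ⟨i % 7, by omega⟩

def sg (w : Fin 14) (T : Fin 2 × Fin 14) : ℤ :=
  if Nat.testBit 1231387850440276657651553693009792890609929261324610935890417190041628950427135399904917412711565771087092744454144 (T.1 * 196 + T.2 * 14 + w) then -1 else 1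

def s : Fin 14 ⊕ Fin 2 × Fin 14 → Fin 14 ⊕ Fin 2 × Fin 14 → ℤ
  | .inl w, .inr T => sg w T
  | .inr T, .inl w => sg w T
  | _, _ => 1

theorem prod_le {ι : Type} (S : Finset ι) (a : ι → ℂ) (h : ∀ i, ‖a i‖ = 1) :
    ‖∏ i ∈ S, a i - 1‖ ≤ ∑ i ∈ S, ‖a i - 1‖ := by
  induction S using Finset.cons_induction with
  | empty => simp
  | cons i S hi ih =>
    rw [prod_cons, sum_cons, show a i * ∏ i ∈ S, a i - 1 = a i - 1 + a i * (∏ i ∈ S, a i - 1) by ring]
    refine (norm_add_le _ _).trans ?_
    rw [norm_mul, h, one_mul]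
    linarith

theorem lower : 1.62 ≤ nu (G 14) := by
  have p : Pot (G 14) fun a b => ((s a b : ℤ) : ℝ) := by
    rintro (a | a) (b | b) - <;> simp [s, sg] <;> split_ifs <;> simp
  refine (low (herm p) _ (lap_real _ _ _ fun x => ?_)).trans (le_nu p)
  have d1 : ∀ i, (G 14).degree (.inl i) = 6 := by decide +kernel
  have d2 : ∀ i, (G 14).degree (.inr i) = 3 := by decide +kernel
  let B : Matrix (Fin 14) (Fin 2 × Fin 14) ℤ := fun w T => if I w T then sg w T else 0
  have hB : ∀ u v, ∑ T, B u T * B v T = if u = v then 6 else 0 := by decide +kernel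
  let z : Fin 2 × Fin 14 → ℝ := fun T => ∑ w, B w T * x (.inl w)
  have e1 : ∑ T, z T ^ 2 = 6 * ∑ w, x (.inl w) ^ 2 := by
    simp only [z, sq, sum_mul_sum]
    rw [sum_comm, mul_sum]
    refine sum_congr rfl fun u _ => ?_
    rw [sum_comm, sum_congr rfl (g := fun v => if u = v then 6 * (x (.inl u) * x (.inl v)) else 0)
      fun v _ => ?_]
    · simp
    · have := congrArg (fun t : ℤ => (t : ℝ) * (x (.inl u) * x (.inl v))) (hB u v)
      simp only [Int.cast_sum, sum_mul, Int.cast_mul, Int.cast_ite, ite_mul] at this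
      simpa [mul_mul_mul_comm] using this
  have e2 : ∀ T, ∑ w, (if I w T then x (.inl w) * sg w T * x (.inr T) else 0) = z T * x (.inr T) :=
    fun T => by
      simp only [z, sum_mul, B]
      exact sum_congr rfl fun w _ => by split_ifs <;> simp [mul_comm]
  have e3 : ∀ T, ∑ w, (if I w T then x (.inr T) * sg w T * x (.inl w) else 0) = z T * x (.inr T) :=
    fun T => by rw [← e2]; exact sum_congr rfl fun w _ => by split_ifs <;> ring
  have e4 : ∑ T, 2 * (z T * x (.inr T)) ≤ ∑ T, (0.73 * z T ^ 2 + 1.38 * x (.inr T) ^ 2) :=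
    sum_le_sum fun T _ => by nlinarith [sq_nonneg (0.73 * z T - x (.inr T)), sq_nonneg (x (.inr T))]
  simp only [Fintype.sum_sum_type, d1, d2, adj.1, adj.2.1, adj.2.2.1, adj.2.2.2, s, if_false,
     sum_const_zero, zero_add, add_zero, e3]
  rw [sum_comm]
  simp only [e2, sum_add_distrib, ← mul_sum, e1, Nat.cast_ofNat] at e4 ⊢
  linarith

theorem upper : nu (G 7) ≤ 1.615 := nu_le fun σ hσ => by
  let c : Fin 7 → Fin 7 → ℂ := fun u v =>
    ∑ T with I u T ∧ I v T, σ (.inr T) (.inl v) * conj (σ (.inr T) (.inl u))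
  have n1 : ∀ w T, I w T → ‖σ (.inr T) (.inl w)‖ = 1 := fun w T h => (hσ (.inr T) (.inl w) h).1
  have n2 : ∀ w T, I w T → σ (.inr T) (.inl w) * conj (σ (.inr T) (.inl w)) = 1 := fun w T h => by
    rw [Complex.mul_conj', n1 w T h]; simp
  obtain ⟨u, v, uv, hc⟩ : ∃ u v, u ≠ v ∧ 2 / 21 ≤ ‖c u v‖ := by
    by_contra k
    push Not at k
    let E : Fin 7 × Fin 3 → Fin 7 × Fin 7 × Fin 7 := fun j =>
      ![(j.1, j.1 + 1, j.1 + 5), (j.1 + 1, j.1 + 3, j.1 + 1), (j.1 + 3, j.1, j.1)] j.2
    have f : ∀ j, (E j).1 ≠ (E j).2.1 ∧ univ.filter (fun T => I (E j).1 T ∧ I (E j).2.1 T) =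
        {(0, j.1), (1, (E j).2.2)} := by decide +kernel
    have g : ∀ j, (I (E j).1 (0, j.1) ∧ I (E j).2.1 (0, j.1)) ∧ I (E j).1 (1, (E j).2.2) ∧
      I (E j).2.1 (1, (E j).2.2) := by decide +kernel
    let t := fun T w => σ (.inr T) (.inl w)
    have := prod_le univ (fun j => -(t (1, (E j).2.2) (E j).2.1 * conj (t (1, (E j).2.2) (E j).1)) *
      (t (0, j.1) (E j).1 * conj (t (0, j.1) (E j).2.1))) fun j => by
        simp [t, n1 _ _ (g j).1.1, n1 _ _ (g j).1.2, n1 _ _ (g j).2.1, n1 _ _ (g j).2.2]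
    have b := sum_lt_sum_of_nonempty univ_nonempty fun j _ => k _ _ (f j).1
    rw [sum_congr rfl (g := fun j => ‖c (E j).1 (E j).2.1‖) fun j _ => ?_] at this
    · have sh : ∀ (k : Fin 7) (F : Fin 7 → ℂ), ∏ i, F (i + k) = ∏ i, F i := fun k F =>
        Equiv.prod_comp (Equiv.addRight k) F
      have q : ∀ a b : Fin 7, I b (0, a) → t (0, a) b * conj (t (0, a) b) = 1 := fun _ _ => n2 _ _
      have q' : ∀ a b : Fin 7, I b (1, a) → t (1, a) b * conj (t (1, a) b) = 1 := fun _ _ => n2 _ _
      simp only [Fintype.prod_prod_type, Fin.prod_univ_three, E, cons_val_zero, cons_val_one,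
        Matrix.cons_val] at this
      rw [prod_congr rfl (g := fun i => -(t (1, i + 5) (i + 5 + 3) * conj (t (1, i + 5) (i + 5 + 2)) *
        (t (1, i + 1) (i + 1 + 2) * conj (t (1, i + 1) (i + 1))) * (t (1, i) i * conj (t (1, i) (i + 3)))))
        fun i _ => ?_, prod_neg, prod_mul_distrib, prod_mul_distrib,
        sh 5 fun i => t (1, i) (i + 3) * conj (t (1, i) (i + 2)),
        sh 1 fun i => t (1, i) (i + 2) * conj (t (1, i) i),
        ← prod_mul_distrib, ← prod_mul_distrib, prod_eq_one fun i _ => ?_] at this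
      · norm_num at this b; linarith
      · linear_combination (t (1, i) (i + 2) * conj (t (1, i) (i + 2)) * (t (1, i) i *
          conj (t (1, i) i))) * q' i (i + 3) (by revert i; decide) + (t (1, i) i * conj (t (1, i) i)) *
          q' i (i + 2) (by revert i; decide) + q' i i (by revert i; decide)
      · rw [show i + 5 + 3 = i + 1 by revert i; decide, show i + 5 + 2 = i by revert i; decide,
          show i + 1 + 2 = i + 3 by revert i; decide]
        linear_combination -(t (1, i + 5) (i + 1) * conj (t (1, i + 5) i) *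
          (t (1, i + 1) (i + 3) * conj (t (1, i + 1) (i + 1))) * (t (1, i) i * conj (t (1, i) (i + 3)))) *
          ((t (0, i) (i + 1) * conj (t (0, i) (i + 1)) * (t (0, i) i *
          conj (t (0, i) i))) * q i (i + 3) (by revert i; decide) + (t (0, i) i * conj (t (0, i) i)) *
          q i (i + 1) (by revert i; decide) + q i i (by revert i; decide))
    · simp only [c, (f j).2]
      rw [sum_pair (by simp), ← norm_neg, ← mul_one ‖_ + _‖, ← show ‖t (0, j.1) (E j).1 *
        conj (t (0, j.1) (E j).2.1)‖ = 1 by simp [t, n1 _ _ (g j).1.1, n1 _ _ (g j).1.2], ← norm_mul]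
      congr 1
      linear_combination -(t (0, j.1) (E j).1 * conj (t (0, j.1) (E j).1)) * n2 _ _ (g j).1.2 -
        n2 _ _ (g j).1.1
  obtain ⟨ω, w1, w2⟩ := Complex.exists_norm_eq_mul_self (c u v)
  let x : Fin 7 → ℂ := Pi.single u 1 + Pi.single v ω
  let z : Fin 2 × Fin 7 → ℂ := fun T => ∑ w, if I w T then σ (.inr T) (.inl w) * x w else 0
  have d1 : ∀ i, (G 7).degree (.inl i) = 6 := by decide +kernel
  have d2 : ∀ i, (G 7).degree (.inr i) = 3 := by decide +kernel
  have d3 : ∀ i : Fin 7, (univ.filter fun T => I i T).card = 6 := by decide +kernel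
  have e0 : ∑ w, ‖x w‖ ^ 2 = 2 := by
    rw [← sum_subset (subset_univ {u, v}) fun w _ h => by simp at h; simp [x, h], sum_pair uv]
    simp [x, uv, uv.symm, w1]; norm_num
  have e1 : ∑ T, ‖z T‖ ^ 2 = 12 + 2 * ‖c u v‖ := by
    have : ∀ T, ‖z T‖ ^ 2 = (if I u T then 1 else 0) + (if I v T then 1 else 0) + 2 * (ω *
        if I u T ∧ I v T then σ (.inr T) (.inl v) * conj (σ (.inr T) (.inl u)) else 0).re := fun T => by
      have : z T = (if I u T then σ (.inr T) (.inl u) else 0) +
          if I v T then σ (.inr T) (.inl v) * ω else 0 := by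
        simp only [z]
        rw [← sum_subset (subset_univ {u, v}) fun w _ h => by simp at h; simp [x, h], sum_pair uv]
        simp [x, uv, uv.symm]
      rw [this, Complex.sq_norm, Complex.normSq_add, ← Complex.sq_norm, ← Complex.sq_norm]
      by_cases a : I u T <;> by_cases b : I v T <;> simp [a, b, n1, w1]
      ring
    simp only [this, sum_add_distrib, ← mul_sum, ← Complex.re_sum, sum_boole, d3, ← sum_filter]
    rw [← w2]; norm_num
  have e3 : ∀ T, ∑ w, (if I w T then (conj (0.73 * z T) * σ (.inr T) (.inl w) * x w).re else 0) =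
      0.73 * ‖z T‖ ^ 2 := fun T => by
    rw [sum_congr rfl (g := fun w => (conj (0.73 * z T) *
      if I w T then σ (.inr T) (.inl w) * x w else 0).re) fun w _ => by
        split_ifs <;> simp [mul_assoc], ← Complex.re_sum, ← mul_sum]
    change (conj (0.73 * z T) * z T).re = _
    simp [Complex.sq_norm, Complex.normSq_apply]; norm_num; ring
  have e2 : ∀ T, ∑ w, (if I w T then (conj (x w) * σ (.inl w) (.inr T) * (0.73 * z T)).re else 0) =
      0.73 * ‖z T‖ ^ 2 := fun T => by
    rw [← e3]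
    refine sum_congr rfl fun w _ => ?_
    split_ifs with h
    · rw [(hσ (.inr T) (.inl w) h).2, ← Complex.conj_re]; congr 1; simp; ring
    · rfl
  have := ray (herm hσ) (Sum.elim x fun T => 0.73 * z T)
  rw [qf] at this
  simp only [Fintype.sum_sum_type, d1, d2, adj.1, adj.2.1, adj.2.2.1, adj.2.2.2, if_false,
     sum_const_zero, zero_add, add_zero, e3,
    Sum.elim_inl, Sum.elim_inr] at this
  rw [sum_comm] at this
  simp only [e2, ← mul_sum, e0, norm_mul, mul_pow, e1] at this
  norm_num at this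
  unfold lam1
  by_contra k
  nlinarith

theorem result : ∃ (V W : Type) (_ : Fintype V) (_ : DecidableEq V) (_ : Fintype W)
    (_ : DecidableEq W) (G : SimpleGraph V) (H : SimpleGraph W) (p : W → V),
    G.Connected ∧ IsLift H G p ∧ nu G < nu H := by
  refine ⟨_, _, inferInstance, inferInstance, inferInstance, inferInstance, G 7, G 14,
    Sum.map r (Prod.map id r), ?_, ⟨by decide +kernel, fun x => ?_⟩, by linarith [lower, upper]⟩
  · have : ∀ w, ∃ a b, (G 7).Adj (.inl 0) a ∧ (G 7).Adj a b ∧ (b = w ∨ (G 7).Adj b w) := by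
      decide +kernel
    refine (SimpleGraph.connected_iff_exists_forall_reachable _).mpr ⟨.inl 0, fun w => ?_⟩
    obtain ⟨a, b, h1, h2, h3⟩ := this w
    exact (h1.reachable.trans h2.reachable).trans (h3.elim (fun h => h ▸ .refl _) (·.reachable))
  · simp only [Set.BijOn, Set.MapsTo, Set.InjOn, Set.SurjOn, Set.subset_def, Set.mem_image,
      SimpleGraph.mem_neighborSet]
    refine ⟨?_, ?_, ?_⟩ <;> revert x <;> decide +kernel

end Pool.Agent.Results.MP_cbccc2_co.Exists
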